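import Pool.Agent.Lib.CMT.Defs
import Pool.Agent.Lib.CMT.H.Signs

/-!
# PROJECT HC, part J: a Galois CM field as a field `KD D` (helper75)

`fld2`: for a Galois CM field `K` of degree at least `4` and `τ₀ : K →+* ℂ` there are a totally real
number field `F` with `[F:ℚ] ≥ 2`, data `D : Dat F` and a ring isomorphism `e : KD D ≃+* K` with
`ev D D.t0 = τ₀ ∘ e`, compatible with the complex conjugations, and every embedding of `KD D` is
`ev D D.t0 ∘ s` with an automorphism `s`.
-/

open NumberField NumberField.ComplexEmbedding NumberField.InfinitePlace Module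
open scoped ComplexConjugate

noncomputable section

namespace HC.J

/-- A positive integral multiple of an element of a number field is integral. -/
theorem exists_mul_int {K : Type*} [Field K] [NumberField K] (x : K) :
    ∃ n : ℕ, 0 < n ∧ IsIntegral ℤ ((n : K) * x) := by
  obtain ⟨y, hy0, hy⟩ := ((IsFractionRing.isAlgebraic_iff ℤ ℚ K).2
    (Algebra.IsAlgebraic.isAlgebraic (R := ℚ) x)).exists_integral_multiple
  refine ⟨y.natAbs, Int.natAbs_pos.2 hy0, ?_⟩
  rw [zsmul_eq_mul] at hy
  rcases Int.natAbs_eq y with h | h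
  · rw [h] at hy
    simpa using hy
  · rw [h] at hy
    have := hy.neg
    simpa using this

/-- An anti-invariant integral element with positive imaginary part under `τ₀`. -/
theorem exists_delta (K : Type) [Field K] [NumberField K] [IsCMField K] (τ₀ : K →+* ℂ) :
    ∃ δ : K, IsIntegral ℤ δ ∧ IsCMField.complexConj K δ = -δ ∧ 0 < (τ₀ δ).im := by
  obtain ⟨x, hx⟩ : ∃ x : K, IsCMField.complexConj K x ≠ x := by
    by_contra hcon
    push Not at hcon
    exact IsCMField.complexConj_ne_one K (AlgEquiv.ext hcon)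
  obtain ⟨n, hn, hint⟩ := exists_mul_int (x - IsCMField.complexConj K x)
  obtain ⟨δ, hδ⟩ : ∃ δ, δ = (n : K) * (x - IsCMField.complexConj K x) := ⟨_, rfl⟩
  rw [← hδ] at hint
  have hne : δ ≠ 0 := by
    rw [hδ]
    refine mul_ne_zero (by exact_mod_cast hn.ne') (sub_ne_zero.2 (Ne.symm hx))
  have hconj : IsCMField.complexConj K δ = -δ := by
    rw [hδ, map_mul, map_sub, IsCMField.complexConj_apply_apply, map_natCast]
    ring
  have hre : (τ₀ δ).re = 0 := by
    have h := IsCMField.complexEmbedding_complexConj K τ₀ δ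
    rw [hconj, map_neg] at h
    have h2 := congrArg Complex.re h
    rw [Complex.neg_re, Complex.conj_re] at h2
    linarith
  have him : (τ₀ δ).im ≠ 0 := by
    intro h
    have h3 : τ₀ δ = 0 := Complex.ext hre h
    exact hne ((map_eq_zero τ₀).1 h3)
  rcases lt_or_gt_of_ne him with h | h
  · refine ⟨-δ, hint.neg, by rw [map_neg, hconj], ?_⟩
    rw [map_neg, Complex.neg_im]
    linarith
  · exact ⟨δ, hint, hconj, h⟩

/-- Every real embedding of the maximal real subfield extends to an embedding of `K`. -/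
theorem exists_ext (K : Type) [Field K] [NumberField K] [IsCMField K]
    (t : maximalRealSubfield K →+* ℝ) :
    ∃ ψ : K →+* ℂ, ∀ x : maximalRealSubfield K, ψ x = ((t x : ℝ) : ℂ) := by
  let : Algebra (maximalRealSubfield K) ℂ := ((Complex.ofRealHom).comp t).toAlgebra
  obtain ⟨ψ⟩ : Nonempty (K →ₐ[maximalRealSubfield K] ℂ) := ⟨IsAlgClosed.lift⟩
  exact ⟨ψ.toRingHom, fun x => ψ.commutes x⟩

/-- The restriction of `τ₀` to the maximal real subfield. -/
theorem exists_t0 (K : Type) [Field K] [NumberField K] [IsCMField K] (τ₀ : K →+* ℂ) :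
    ∃ t : maximalRealSubfield K →+* ℝ, ∀ x : maximalRealSubfield K, τ₀ x = ((t x : ℝ) : ℂ) := by
  have hr : ComplexEmbedding.IsReal (τ₀.comp (algebraMap (maximalRealSubfield K) K)) :=
    IsTotallyReal.complexEmbedding_isReal _
  refine ⟨hr.embedding, fun x => ?_⟩
  rw [ComplexEmbedding.IsReal.coe_embedding_apply]
  rfl

/-- `β`: integral, positive at `t₀` and negative at the other places. -/
theorem exists_bet {F : Type} [Field F] [NumberField F] (t₀ : F →+* ℝ) :
    ∃ b : F, IsIntegral ℤ b ∧ 0 < t₀ b ∧ ∀ t : F →+* ℝ, t ≠ t₀ → t b < 0 := by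
  classical
  obtain ⟨a, ha⟩ := CMT.exists_sign (F := F) (fun t => if t = t₀ then 1 else -1)
    (fun t => by by_cases h : t = t₀ <;> simp [h])
  obtain ⟨n, hn, hint⟩ := exists_mul_int a
  refine ⟨(n : F) * a, hint, ?_, fun t ht => ?_⟩
  · have h := ha t₀
    rw [if_pos rfl, one_mul] at h
    rw [map_mul, map_natCast]
    exact mul_pos (by exact_mod_cast hn) h
  · have h := ha t
    rw [if_neg ht] at h
    rw [map_mul, map_natCast]
    exact mul_neg_of_pos_of_neg (by exact_mod_cast hn) (by linarith)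

/-- **A Galois CM field of degree at least 4 as a field `KD D`.** -/
theorem fld2 (K : Type) [Field K] [NumberField K] [IsCMField K] [IsGalois ℚ K]
    (h4 : 4 ≤ finrank ℚ K) (τ₀ : K →+* ℂ) :
    ∃ (F : Type) (_ : Field F) (_ : NumberField F) (_ : IsTotallyReal F) (D : CMT.Dat F)
      (e : CMT.KD D ≃+* K), 2 ≤ finrank ℚ F ∧ (∀ x, CMT.ev D D.t0 x = τ₀ (e x)) ∧
      (∀ x, e (CMT.cj D x) = IsCMField.complexConj K (e x)) ∧
      ∀ τ : CMT.KD D →+* ℂ, ∃ s : CMT.KD D ≃+* CMT.KD D,
        τ = (CMT.ev D D.t0).comp (s : CMT.KD D →+* CMT.KD D) := by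
  classical
  obtain ⟨δ, hδint, hδ, hδim⟩ := exists_delta K τ₀
  obtain ⟨t₀, ht₀⟩ := exists_t0 K τ₀
  obtain ⟨b, hbint, hb0, hb⟩ := exists_bet t₀
  have hδne : δ ≠ 0 := by
    rintro rfl
    simp at hδim
  have hmem : -(δ * δ) ∈ maximalRealSubfield K := by
    rw [← IsCMField.complexConj_eq_self_iff, map_neg, map_mul, hδ]
    ring
  obtain ⟨Δ, hΔ⟩ : ∃ Δ : maximalRealSubfield K, (Δ : K) = -(δ * δ) := ⟨⟨_, hmem⟩, rfl⟩
  have hΔint : IsIntegral ℤ Δ := by
    rw [← isIntegral_algebraMap_iff (B := K) (FaithfulSMul.algebraMap_injective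
      (maximalRealSubfield K) K)]
    show IsIntegral ℤ (Δ : K)
    rw [hΔ]
    exact (hδint.mul hδint).neg
  have hΔpos : ∀ t : maximalRealSubfield K →+* ℝ, 0 < t Δ := by
    intro t
    obtain ⟨ψ, hψ⟩ := exists_ext K t
    have h1 : ψ (-(δ * δ)) = ((t Δ : ℝ) : ℂ) := by rw [← hΔ, hψ]
    have hre : (ψ δ).re = 0 := by
      have h := IsCMField.complexEmbedding_complexConj K ψ δ
      rw [hδ, map_neg] at h
      have h2 := congrArg Complex.re h
      rw [Complex.neg_re, Complex.conj_re] at h2
      linarith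
    have him : (ψ δ).im ≠ 0 := by
      intro h
      have h3 : ψ δ = 0 := Complex.ext hre h
      exact hδne ((map_eq_zero ψ).1 h3)
    have h2 := congrArg Complex.re h1
    rw [map_neg, map_mul, Complex.neg_re, Complex.mul_re, hre, Complex.ofReal_re] at h2
    have h3 : 0 < (ψ δ).im * (ψ δ).im := mul_self_pos.2 him
    linarith
  let D : CMT.Dat (maximalRealSubfield K) :=
    { t0 := t₀, del := Δ, bet := b, del_int := hΔint, bet_int := hbint, del_pos := hΔpos,
      bet_pos := hb0, bet_neg := hb }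
  -- the isomorphism
  let e₀ : CMT.KD D →+* K :=
    { toFun := fun v => (v.re : K) + (v.im : K) * δ
      map_one' := by
        rw [QuadraticAlgebra.re_one, QuadraticAlgebra.im_one]
        simp
      map_zero' := by
        rw [QuadraticAlgebra.re_zero, QuadraticAlgebra.im_zero]
        simp
      map_add' := by
        intro v w
        rw [QuadraticAlgebra.re_add, QuadraticAlgebra.im_add]
        push_cast
        ring
      map_mul' := by
        intro v w
        rw [QuadraticAlgebra.re_mul, QuadraticAlgebra.im_mul]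
        have h : ((-D.del : maximalRealSubfield K) : K) = δ * δ := by
          show ((-Δ : maximalRealSubfield K) : K) = δ * δ
          push_cast
          rw [hΔ]
          ring
        push_cast at h ⊢
        linear_combination ((v.im : K) * (w.im : K)) * h }
  have he₀ : ∀ v : CMT.KD D, e₀ v = (v.re : K) + (v.im : K) * δ := fun v => rfl
  have hcjx : ∀ x : maximalRealSubfield K, IsCMField.complexConj K (x : K) = x :=
    fun x => IsCMField.complexConj_apply_eq_self K x
  have hcj : ∀ v, e₀ (CMT.cj D v) = IsCMField.complexConj K (e₀ v) := by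
    intro v
    rw [he₀, he₀, map_add, map_mul, hcjx, hcjx, hδ]
    show (v.re : K) + ((-v.im : maximalRealSubfield K) : K) * δ = _
    push_cast
    ring
  have hinj : Function.Injective e₀ := by
    rw [injective_iff_map_eq_zero]
    intro v hv
    have h1 := hv
    rw [he₀] at h1
    have h2 := hcj v
    rw [hv, map_zero, he₀] at h2
    have h3 : (v.re : K) + ((-v.im : maximalRealSubfield K) : K) * δ = 0 := h2
    push_cast at h3
    have h4 : (v.re : K) = 0 := by linear_combination (h1 + h3) / 2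
    have h5 : (v.im : K) * δ = 0 := by linear_combination (h1 - h3) / 2
    have h6 : (v.im : K) = 0 := (mul_eq_zero.1 h5).resolve_right hδne
    apply QuadraticAlgebra.ext
    · rw [QuadraticAlgebra.re_zero]; exact_mod_cast h4
    · rw [QuadraticAlgebra.im_zero]; exact_mod_cast h6
  have hsurj : Function.Surjective e₀ := by
    intro x
    have h1 : (x + IsCMField.complexConj K x) / 2 ∈ maximalRealSubfield K := by
      rw [← IsCMField.complexConj_eq_self_iff, map_div₀, map_add, IsCMField.complexConj_apply_apply,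
        map_ofNat]
      ring
    have h2 : (x - IsCMField.complexConj K x) / (2 * δ) ∈ maximalRealSubfield K := by
      rw [← IsCMField.complexConj_eq_self_iff, map_div₀, map_sub, IsCMField.complexConj_apply_apply,
        map_mul, map_ofNat, hδ]
      field_simp
      ring
    refine ⟨⟨⟨_, h1⟩, ⟨_, h2⟩⟩, ?_⟩
    rw [he₀]
    show (x + IsCMField.complexConj K x) / 2 + (x - IsCMField.complexConj K x) / (2 * δ) * δ = x
    field_simp
    ring
  let e : CMT.KD D ≃+* K := RingEquiv.ofBijective e₀ ⟨hinj, hsurj⟩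
  have he : ∀ v, e v = e₀ v := fun v => rfl
  have hev : ∀ x, CMT.ev D D.t0 x = τ₀ (e x) := by
    intro v
    rw [he, he₀, map_add, map_mul, ht₀, ht₀]
    show ((t₀ v.re : ℝ) : ℂ) + Complex.I * ((Real.sqrt (t₀ Δ) : ℝ) : ℂ) * ((t₀ v.im : ℝ) : ℂ) = _
    have hre : (τ₀ δ).re = 0 := by
      have h := IsCMField.complexEmbedding_complexConj K τ₀ δ
      rw [hδ, map_neg] at h
      have h2 := congrArg Complex.re h
      rw [Complex.neg_re, Complex.conj_re] at h2
      linarith
    have h1 : τ₀ (-(δ * δ)) = ((t₀ Δ : ℝ) : ℂ) := by rw [← hΔ, ht₀]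
    have h2 := congrArg Complex.re h1
    rw [map_neg, map_mul, Complex.neg_re, Complex.mul_re, hre, Complex.ofReal_re] at h2
    have h3 : Real.sqrt (t₀ Δ) = (τ₀ δ).im := by
      rw [← h2]
      have : -(0 * 0 - (τ₀ δ).im * (τ₀ δ).im) = (τ₀ δ).im ^ 2 := by ring
      rw [this, Real.sqrt_sq hδim.le]
    have h4 : τ₀ δ = Complex.I * (((τ₀ δ).im : ℝ) : ℂ) := by
      apply Complex.ext
      · rw [hre]; simp
      · simp
    rw [h3, h4]
    simp only [Complex.mul_im, Complex.I_re, Complex.ofReal_im, Complex.I_im, Complex.ofReal_re,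
      zero_mul, one_mul, zero_add]
    ring
  refine ⟨maximalRealSubfield K, inferInstance, inferInstance, inferInstance, D, e, ?_, hev, hcj, ?_⟩
  · have h1 := Module.finrank_mul_finrank ℚ (maximalRealSubfield K) K
    have h2 : finrank (maximalRealSubfield K) K = 2 :=
      Algebra.IsQuadraticExtension.finrank_eq_two _ K
    rw [h2] at h1
    omega
  · intro τ
    obtain ⟨σ, hσ⟩ := exists_comp_symm_eq_of_comp_eq (k := ℚ) τ₀
      (τ.comp (e.symm : K →+* CMT.KD D)) (by ext; simp)
    refine ⟨(e.trans (σ.symm : K ≃+* K)).trans e.symm, ?_⟩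
    ext1 x
    have h1 : ((CMT.ev D D.t0).comp (((e.trans (σ.symm : K ≃+* K)).trans e.symm :
        CMT.KD D ≃+* CMT.KD D) : CMT.KD D →+* CMT.KD D)) x =
        CMT.ev D D.t0 (e.symm (σ.symm (e x))) := rfl
    rw [h1, hev, RingEquiv.apply_symm_apply]
    have h2 := RingHom.congr_fun hσ (e x)
    have h3 : (τ₀.comp (σ.symm : K →+* K)) (e x) = τ₀ (σ.symm (e x)) := rfl
    have h4 : (τ.comp (e.symm : K →+* CMT.KD D)) (e x) = τ (e.symm (e x)) := rfl
    rw [RingEquiv.symm_apply_apply] at h4
    rw [← h4, ← h2]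
    rfl

end HC.J
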