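import Mathlib

/-!
# PROJECT HC, part J: a Galois CM field containing a finite family of CM fields (helper75)
-/

open NumberField NumberField.ComplexEmbedding NumberField.InfinitePlace Module
open scoped ComplexConjugate

noncomputable section

namespace HC.J

/-- The elements on which `σ` is the complex conjugation under all embeddings. -/
def conjField (M : Type*) [Field M] [NumberField M] (σ : M ≃ₐ[ℚ] M) : IntermediateField ℚ M where
  carrier := {x | ∀ ψ : M →+* ℂ, ψ (σ x) = conj (ψ x)}
  mul_mem' ha hb ψ := by rw [map_mul, map_mul, ha ψ, hb ψ, map_mul, map_mul]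
  add_mem' ha hb ψ := by rw [map_add, map_add, ha ψ, hb ψ, map_add, map_add]
  algebraMap_mem' r ψ := by simp
  inv_mem' x hx ψ := by rw [map_inv₀, map_inv₀, hx ψ, map_inv₀, map_inv₀]

theorem mem_conjField {M : Type*} [Field M] [NumberField M] (σ : M ≃ₐ[ℚ] M) (x : M) :
    x ∈ conjField M σ ↔ ∀ ψ : M →+* ℂ, ψ (σ x) = conj (ψ x) := Iff.rfl

/-- The images of CM fields are in `conjField`. -/
theorem range_le_conjField {M : Type*} [Field M] [NumberField M] {σ : M ≃ₐ[ℚ] M} {φ : M →+* ℂ}
    (hσ : IsConj φ σ) (A : Type*) [Field A] [NumberField A] [IsCMField A] (e : A →+* M) (y : A) :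
    e y ∈ conjField M σ := by
  have h1 : σ (e y) = e (IsCMField.complexConj A y) := by
    apply φ.injective
    rw [hσ.eq]
    have h := IsCMField.complexEmbedding_complexConj A (φ.comp e) y
    rw [RingHom.comp_apply, RingHom.comp_apply] at h
    rw [h]
    rfl
  intro ψ
  rw [h1]
  exact IsCMField.complexEmbedding_complexConj A (ψ.comp e) y

/-- the algebraic closure of `ℚ` -/
abbrev Ω : Type := AlgebraicClosure ℚ

/-- the field of the 8-th roots of unity -/
abbrev C8 : Type := CyclotomicField 8 ℚ

theorem normal_Ω : Normal ℚ Ω := by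
  have : @Normal ℚ Ω _ _ (AlgebraicClosure.instAlgebra ..) := by infer_instance
  convert this
  exact Subsingleton.elim _ _

theorem isAlgClosed_Ω : IsAlgClosed Ω := inferInstance

/-- **A Galois CM field containing a finite family of CM fields**, of degree at least `4`. -/
theorem exists_galois_cm {ι : Type} [Finite ι] (E : ι → Type) [∀ i, Field (E i)]
    [∀ i, NumberField (E i)] [∀ i, IsCMField (E i)] :
    ∃ M : IntermediateField ℚ (AlgebraicClosure ℚ), FiniteDimensional ℚ M ∧ Normal ℚ M ∧
      IsCMField M ∧ 4 ≤ finrank ℚ M ∧ ∀ i, Nonempty (E i →ₐ[ℚ] M) := by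
  have hc8 : IsCyclotomicExtension {8} ℚ C8 := CyclotomicField.isCyclotomicExtension 8 ℚ
  have : NumberField C8 := IsCyclotomicExtension.numberField {8} ℚ C8
  have : IsCMField C8 := IsCyclotomicExtension.Rat.isCMField C8 (S := {8}) ⟨8, rfl, by norm_num⟩
  let M : IntermediateField ℚ Ω := (⨆ i, IntermediateField.normalClosure ℚ (E i) Ω) ⊔
    IntermediateField.normalClosure ℚ C8 Ω
  have : FiniteDimensional ℚ M := inferInstance
  have := normal_Ω
  have h1 : ∀ i, Normal ℚ (IntermediateField.normalClosure ℚ (E i) Ω) :=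
    fun i => normalClosure.normal ℚ (E i) Ω
  have h2 : Normal ℚ (IntermediateField.normalClosure ℚ C8 Ω) := normalClosure.normal ℚ C8 Ω
  have h3 : Normal ℚ (⨆ i, IntermediateField.normalClosure ℚ (E i) Ω : IntermediateField ℚ Ω) :=
    IntermediateField.normal_iSup ℚ Ω _
  have : Normal ℚ M := IntermediateField.normal_sup ℚ Ω _ _
  have hle : ∀ i, IntermediateField.normalClosure ℚ (E i) Ω ≤ M :=
    fun i => (le_iSup (fun i => IntermediateField.normalClosure ℚ (E i) Ω) i).trans le_sup_left
  have hle8 : IntermediateField.normalClosure ℚ C8 Ω ≤ M := le_sup_right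
  have hcod : ∀ (A : Type) [Field A] [NumberField A],
      IntermediateField.normalClosure ℚ A Ω ≤ M → ∀ f : A →ₐ[ℚ] Ω,
      ∃ e : A →ₐ[ℚ] M, ∀ a, ((e a : M) : Ω) = f a := by
    intro A _ _ h f
    refine ⟨f.codRestrict M.toSubalgebra (fun a => ?_), fun a => rfl⟩
    exact h (f.fieldRange_le_normalClosure ⟨a, rfl⟩)
  have hex : ∀ (A : Type) [Field A] [NumberField A],
      IntermediateField.normalClosure ℚ A Ω ≤ M → Nonempty (A →ₐ[ℚ] M) := by
    intro A _ _ h
    obtain ⟨e, -⟩ := hcod A h (IsAlgClosed.lift (R := ℚ) (S := A) (M := Ω))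
    exact ⟨e⟩
  refine ⟨M, inferInstance, inferInstance, ?_, ?_, fun i => hex (E i) (hle i)⟩
  · -- CM
    have : NumberField M := ⟨⟩
    have : IsGalois ℚ M := ⟨⟩
    obtain ⟨e8⟩ := hex C8 hle8
    have : IsTotallyComplex M := by
      let := e8.toRingHom.toAlgebra
      exact isTotallyComplex_of_algebra C8 M
    let φ : M →+* ℂ := Classical.choice (inferInstance : Nonempty _)
    obtain ⟨σ, hσ⟩ : ∃ σ : M ≃ₐ[ℚ] M, IsConj φ σ := by
      obtain ⟨σ, hσ⟩ := exists_comp_symm_eq_of_comp_eq (k := ℚ) φ (conjugate φ) (by ext; simp)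
      exact ⟨σ.symm, hσ.symm⟩
    refine IsCMField.of_forall_isConj M (σ := σ) ?_
    have htop : conjField M σ = ⊤ := by
      have hgen : ∀ (A : Type) [Field A] [NumberField A] [IsCMField A],
          IntermediateField.normalClosure ℚ A Ω ≤ M →
          IntermediateField.normalClosure ℚ A Ω ≤ IntermediateField.lift (conjField M σ) := by
        intro A _ _ _ h
        rw [normalClosure_def]
        refine iSup_le (fun f => ?_)
        rintro _ ⟨a, rfl⟩
        obtain ⟨e, he⟩ := hcod A h f
        have h2 := range_le_conjField hσ A (e : A →+* M) a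
        have h3 : ((e a : M) : Ω) ∈ IntermediateField.lift (conjField M σ) :=
          (IntermediateField.mem_lift (e a)).2 h2
        rw [he a] at h3
        exact h3
      have h1 : M ≤ IntermediateField.lift (conjField M σ) :=
        sup_le (iSup_le fun i => hgen (E i) (hle i)) (hgen C8 hle8)
      rw [eq_top_iff]
      intro x _
      have h2 := h1 x.2
      exact (IntermediateField.mem_lift x).1 h2
    intro ψ
    ext1 x
    have hx : x ∈ conjField M σ := by rw [htop]; trivial
    exact (hx ψ).symm
  · -- degree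
    obtain ⟨e8⟩ := hex C8 hle8
    have h1 : finrank ℚ C8 = 4 := by
      rw [IsCyclotomicExtension.finrank (n := 8) C8 (Polynomial.cyclotomic.irreducible_rat
        (by norm_num))]
      decide
    rw [← h1]
    exact LinearMap.finrank_le_finrank_of_injective (f := e8.toLinearMap) e8.toRingHom.injective

end HC.J
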