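import Pool.Agent.Lib.HC.J.Tor2

/-!
# PROJECT HC, part J (helper28): the homomorphisms `T → T'` (restriction of embeddings) and `T' → T` (trace)
-/

set_option autoImplicit false

open NumberField

noncomputable section

namespace HC.J

variable {n : ℕ} {E : Fin n → Type} [∀ i, Field (E i)] [∀ i, NumberField (E i)]
  {K : Type} [Field K] [NumberField K] (ε : ∀ i, E i →+* K) (Φ : ∀ i, Set (E i →+* ℂ))

/-- The CM types of `K` induced by the `Φ i`. -/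
def Si (i : Fin n) : Set (K →+* ℂ) := {τ | τ.comp (ε i) ∈ Φ i}

omit [∀ i, NumberField (E i)] [NumberField K] in
variable {Φ} in
theorem isType_Si (hΦ : ∀ i, IsType (Φ i)) (i : Fin n) : IsType (Si ε Φ i) :=
  fun τ => hΦ i (τ.comp (ε i))

/-- The restriction of embeddings. -/
def gS (s : (i : Fin n) × Si ε Φ i) : (i : Fin n) × Φ i := ⟨s.1, s.2.1.comp (ε s.1), s.2.2⟩

/-- The coordinates of the map `T → T'`. -/
def R0 : (((i : Fin n) × Φ i) → ℂ) →ₗ[ℂ] (((i : Fin n) × Si ε Φ i) → ℂ) :=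
  LinearMap.funLeft ℂ ℂ (gS ε Φ)

omit [∀ i, NumberField (E i)] [NumberField K] in
theorem R0_apply (w : ((i : Fin n) × Φ i) → ℂ) (s : (i : Fin n) × Si ε Φ i) :
    R0 ε Φ w s = w (gS ε Φ s) := rfl

instance fintypeFib (i : Fin n) (φ : E i →+* ℂ) : Fintype (Fib (ε i) φ) := Fintype.ofFinite _

/-- The points of `T'` above a point of `T`. -/
def up (s : (i : Fin n) × Φ i) (τ : Fib (ε s.1) s.2.1) : (i : Fin n) × Si ε Φ i :=
  ⟨s.1, τ.1, by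
    change τ.1.comp (ε s.1) ∈ Φ s.1
    rw [τ.2]
    exact s.2.2⟩

omit [∀ i, NumberField (E i)] [NumberField K] in
theorem gS_up (s : (i : Fin n) × Φ i) (τ : Fib (ε s.1) s.2.1) : gS ε Φ (up ε Φ s τ) = s := by
  obtain ⟨i, φ, hφ⟩ := s
  obtain ⟨τ, hτ⟩ := τ
  change (⟨i, ⟨τ.comp (ε i), _⟩⟩ : (i : Fin n) × Φ i) = ⟨i, ⟨φ, hφ⟩⟩
  congr 2

/-- The coordinates of the map `T' → T`. -/
def Tr0 : (((i : Fin n) × Si ε Φ i) → ℂ) →ₗ[ℂ] (((i : Fin n) × Φ i) → ℂ) :=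
  LinearMap.pi fun s => (Module.finrank ℚ (E s.1) : ℂ) •
    ∑ τ : Fib (ε s.1) s.2.1, LinearMap.proj (up ε Φ s τ)

theorem Tr0_apply (w : ((i : Fin n) × Si ε Φ i) → ℂ) (s : (i : Fin n) × Φ i) :
    Tr0 ε Φ w s = (Module.finrank ℚ (E s.1) : ℂ) * ∑ τ : Fib (ε s.1) s.2.1, w (up ε Φ s τ) := by
  unfold Tr0
  rw [LinearMap.pi_apply, LinearMap.smul_apply, LinearMap.sum_apply, smul_eq_mul]
  rfl

theorem Tr0_R0 (w : ((i : Fin n) × Φ i) → ℂ) :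
    Tr0 ε Φ (R0 ε Φ w) = (Module.finrank ℚ K : ℂ) • w := by
  funext s
  rw [Tr0_apply]
  have h1 : ∀ τ : Fib (ε s.1) s.2.1, R0 ε Φ w (up ε Φ s τ) = w s := by
    intro τ
    rw [R0_apply, gS_up]
  rw [Finset.sum_congr rfl fun τ _ => h1 τ, Finset.sum_const, Finset.card_univ, nsmul_eq_mul,
    ← mul_assoc, Pi.smul_apply, smul_eq_mul, ← card_Fib (ε s.1) s.2.1]
  push_cast
  rfl

theorem Tr0_emb (y : Fin n → K) : ∃ x : ∀ i, E i,
    Tr0 ε Φ (fun s => s.2.1 (y s.1)) = emb Φ x := by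
  choose x hx using fun i => exists_tr (ε i) (y i)
  refine ⟨fun i => (Module.finrank ℚ (E i) : E i) * x i, ?_⟩
  funext s
  rw [Tr0_apply]
  change _ = s.2.1 ((Module.finrank ℚ (E s.1) : E s.1) * x s.1)
  rw [map_mul, map_natCast, ← hx]
  rfl

variable {Φ}

/-- **The homomorphisms.** -/
theorem exists_maps (T T' : AV) (hΦ : ∀ i, IsType (Φ i))
    (ψ : T.V ≃ₗ[ℂ] ((s : (i : Fin n) × Φ i) → ℂ))
    (hL : ∀ v ∈ T.L, ∃ y : ∀ i, E i, ∀ (i : Fin n) (φ : Φ i), ψ v ⟨i, φ⟩ = φ.1 (y i))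
    (ψ' : T'.V ≃ₗ[ℂ] ((s : (i : Fin n) × Si ε Φ i) → ℂ))
    (hL' : ∀ v, v ∈ T'.L ↔ ∃ y : Fin n → 𝓞 K, ∀ s, ψ' v s = s.2.1 (y s.1 : K)) :
    ∃ (N : ℕ) (α : T.V →ₗ[ℂ] T'.V) (β : T'.V →ₗ[ℂ] T.V), 0 < N ∧ (∀ v ∈ T.L, α v ∈ T'.L) ∧
      (∀ v ∈ T'.L, β v ∈ T.L) ∧ ∀ v, β (α v) = (N : ℂ) • v := by
  have hfin : Module.Finite ℤ T.L := ZLattice.module_finite ℝ T.L
  have hfin' : Module.Finite ℤ T'.L := ZLattice.module_finite ℝ T'.L
  let α0 : T.V →ₗ[ℂ] T'.V := ψ'.symm.toLinearMap ∘ₗ R0 ε Φ ∘ₗ ψ.toLinearMap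
  let β0 : T'.V →ₗ[ℂ] T.V := ψ.symm.toLinearMap ∘ₗ Tr0 ε Φ ∘ₗ ψ'.toLinearMap
  have hα0 : ∀ v, ψ' (α0 v) = R0 ε Φ (ψ v) := fun v => ψ'.apply_symm_apply _
  have hβ0 : ∀ v, ψ (β0 v) = Tr0 ε Φ (ψ' v) := fun v => ψ.apply_symm_apply _
  obtain ⟨N1, hN1, h1⟩ := exists_den α0.toAddMonoidHom T.L T'.L (by
    intro v hv
    obtain ⟨y, hy⟩ := hL v hv
    have h2 : ∀ i, ∃ m : ℕ, 0 < m ∧ IsIntegral ℤ ((m : K) * ε i (y i)) := by
      intro i
      have h0 : IsAlgebraic ℤ (ε i (y i)) :=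
        (IsFractionRing.isAlgebraic_iff ℤ ℚ K).2 (Algebra.IsAlgebraic.isAlgebraic _)
      obtain ⟨m, hm, h⟩ := h0.exists_integral_multiple
      refine ⟨m.natAbs, Int.natAbs_pos.2 hm, ?_⟩
      rw [zsmul_eq_mul] at h
      rcases Int.natAbs_eq m with h3 | h3
      · have h4 : ((m.natAbs : ℕ) : K) = (m : K) := by
          rw [← Int.cast_natCast, ← h3]
        rw [h4]
        exact h
      · have h4 : ((m.natAbs : ℕ) : K) = -(m : K) := by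
          have h5 : ((m.natAbs : ℕ) : ℤ) = -m := by omega
          rw [← Int.cast_natCast, h5, Int.cast_neg]
        rw [h4, neg_mul]
        exact h.neg
    choose m hm hi using h2
    refine ⟨∏ i, m i, Finset.prod_pos fun i _ => hm i, ?_⟩
    have h3 : ∀ i, IsIntegral ℤ (((∏ i, m i : ℕ) : K) * ε i (y i)) := by
      intro i
      obtain ⟨q, hq⟩ := Finset.dvd_prod_of_mem m (Finset.mem_univ i)
      rw [hq]
      push_cast
      have e : (m i : K) * (q : K) * ε i (y i) = (q : K) * ((m i : K) * ε i (y i)) := by ring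
      rw [e]
      exact (isIntegral_natCast q).mul (hi i)
    rw [hL']
    refine ⟨fun i => ⟨_, h3 i⟩, fun s => ?_⟩
    change ψ' ((∏ i, m i) • α0 v) s = s.2.1 (((∏ i, m i : ℕ) : K) * ε s.1 (y s.1))
    rw [map_nsmul, hα0, Pi.smul_apply, R0_apply, nsmul_eq_mul, map_mul, map_natCast]
    congr 1
    exact hy s.1 ⟨s.2.1.comp (ε s.1), s.2.2⟩)
  obtain ⟨N2, hN2, h2⟩ := exists_den β0.toAddMonoidHom T'.L T.L (by
    intro v hv
    obtain ⟨y, hy⟩ := (hL' v).1 hv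
    obtain ⟨x, hx⟩ := Tr0_emb ε Φ (fun i => (y i : K))
    refine exists_mul_mem hΦ ψ hL x (w := β0 v) ?_
    rw [hβ0, ← hx]
    congr 1
    funext s
    exact hy s)
  refine ⟨N2 * N1 * Module.finrank ℚ K, (N1 : ℂ) • α0, (N2 : ℂ) • β0,
    Nat.mul_pos (Nat.mul_pos hN2 hN1) Module.finrank_pos, ?_, ?_, ?_⟩
  · intro v hv
    have h := h1 v hv
    rwa [← Nat.cast_smul_eq_nsmul ℂ] at h
  · intro v hv
    have h := h2 v hv
    rwa [← Nat.cast_smul_eq_nsmul ℂ] at h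
  · intro v
    apply ψ.injective
    rw [LinearMap.smul_apply, LinearMap.smul_apply, map_smul, map_smul, map_smul, hβ0, hα0, Tr0_R0,
      map_smul, smul_smul, smul_smul]
    push_cast
    rfl

end HC.J
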