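import Pool.Agent.Lib.HC.Iface
import Pool.Agent.Lib.HC.J.Fld1
import Pool.Agent.Lib.HC.J.Tor3

/-!
# PROJECT HC, part J (helper28): reduction to products of the `A_(f i)` for one Galois CM field
-/

set_option autoImplicit false

open NumberField
open scoped ComplexConjugate

noncomputable section

namespace HC.J

/-- A Galois CM field as a `CMF`. -/
def mkX (K : Type) [Field K] [NumberField K] [IsGalois ℚ K] [IsCMField K] (τ : K →+* ℂ)
    (h : 4 ≤ Module.finrank ℚ K) : CMF where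
  K := K
  τ := τ
  c := (IsCMField.complexConj K).restrictScalars ℚ
  hc x := IsCMField.complexEmbedding_complexConj K τ x
  comm g := by
    ext x
    apply τ.injective
    change τ (IsCMField.complexConj K (g x)) = τ (g (IsCMField.complexConj K x))
    rw [IsCMField.complexEmbedding_complexConj K τ]
    exact (IsCMField.complexEmbedding_complexConj K (τ.comp (g : K →+* K)) x).symm
  ne := by
    intro h1
    apply IsCMField.complexConj_ne_one K
    ext x
    exact DFunLike.congr_fun h1 x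
  big := by omega

/-- The embeddings of `K` are the `τ ∘ g`. -/
def eG (X : CMF) : X.G ≃ (X.K →+* ℂ) :=
  Equiv.ofBijective (fun g => X.τ.comp (g : X.K →+* X.K)) ⟨by
    intro g g' h
    ext x
    apply X.τ.injective
    exact RingHom.congr_fun h x, by
    intro φ
    obtain ⟨σ, hσ⟩ := ComplexEmbedding.exists_comp_symm_eq_of_comp_eq (k := ℚ) X.τ φ (by ext; simp)
    exact ⟨σ.symm, hσ⟩⟩

theorem eG_apply (X : CMF) (g : X.G) (x : X.K) : eG X g x = X.τ (g x) := rfl

/-- The CM type of `K` induced by a CM type of `E`. -/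
def ity (X : CMF) {E : Type} [Field E] (ε : E →+* X.K) {Φ : Set (E →+* ℂ)} (hΦ : IsType Φ) :
    Ty X where
  S := {g | (eG X g).comp ε ∈ Φ}
  cm g := by
    have e : (eG X (X.c * g)).comp ε = ComplexEmbedding.conjugate ((eG X g).comp ε) := by
      ext x
      exact X.hc (g (ε x))
    change (eG X g).comp ε ∈ Φ ↔ (eG X (X.c * g)).comp ε ∉ Φ
    rw [e]
    exact hΦ _

/-- **Part J.** -/
theorem tJ (hC : S_C) : S_J := by
  intro T hT
  obtain ⟨n, E, _, _, _, Φ, hΦ, ψ, hL⟩ := hT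
  obtain ⟨M, hfd, hnorm, hcm, h4, hε⟩ := exists_galois_cm E
  have : NumberField M := ⟨⟩
  have : IsGalois ℚ M := ⟨⟩
  have ε' : ∀ i, E i →ₐ[ℚ] M := fun i => Classical.choice (hε i)
  obtain ⟨τ⟩ : Nonempty (M →+* ℂ) := inferInstance
  let X : CMF := mkX M τ h4
  let ε : ∀ i, E i →+* X.K := fun i => (ε' i).toRingHom
  let f : Fin n → Ty X := fun i => ity X (ε i) (hΦ i)
  obtain ⟨T', ⟨C⟩⟩ := hC X (Fin n) f
  let e : ((i : Fin n) × (f i).S) ≃ ((i : Fin n) × Si ε Φ i) :=
    Equiv.sigmaCongrRight (fun i => (eG X).subtypeEquiv (fun g => Iff.rfl))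
  have he : ∀ (i : Fin n) (g : (f i).S) (x : X.K), (e ⟨i, g⟩).2.1 x = X.τ (g.1 x) :=
    fun i g x => rfl
  let ψ' : T'.V ≃ₗ[ℂ] (((i : Fin n) × Si ε Φ i) → ℂ) :=
    C.ψ.trans (LinearEquiv.funCongrLeft ℂ ℂ e.symm)
  have hψ' : ∀ v s, ψ' v (e s) = C.ψ v s := by
    intro v s
    change C.ψ v (e.symm (e s)) = C.ψ v s
    rw [e.symm_apply_apply]
  have hL' : ∀ v, v ∈ T'.L ↔ ∃ y : Fin n → 𝓞 X.K, ∀ s, ψ' v s = s.2.1 (y s.1 : X.K) := by
    intro v
    rw [C.lat]
    constructor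
    · rintro ⟨y, hy, h⟩
      refine ⟨fun i => ⟨y i, hy i⟩, fun s => ?_⟩
      obtain ⟨s', rfl⟩ := e.surjective s
      rw [hψ']
      exact h s'.1 s'.2
    · rintro ⟨y, h⟩
      refine ⟨fun i => (y i : X.K), fun i => (y i).2, fun i g => ?_⟩
      have h1 := h (e ⟨i, g⟩)
      rw [hψ'] at h1
      exact h1
  obtain ⟨N, α, β, hN, h1, h2, h3⟩ := exists_maps ε T T' hΦ ψ hL ψ' hL'
  exact ⟨X, n, f, T', C, α, β, N, hN, h1, h2, h3⟩

end HC.J
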