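import Mathlib

/-!
# PROJECT HC, part J (helper28): the embeddings of an extension `K` of a number field `E` above an embedding of `E`
-/

set_option autoImplicit false

open NumberField

noncomputable section

namespace HC.J

/-- The embeddings of `K` above `φ`. -/
abbrev Fib {E K : Type} [Field E] [Field K] (ε : E →+* K) (φ : E →+* ℂ) : Type :=
  {τ : K →+* ℂ // τ.comp ε = φ}

variable {E K : Type} [Field E] [NumberField E] [Field K] [NumberField K] (ε : E →+* K)

/-- The number of the embeddings above `φ` is `[K : E]`. -/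
theorem card_Fib [∀ φ, Fintype (Fib ε φ)] (φ : E →+* ℂ) :
    Module.finrank ℚ E * Fintype.card (Fib ε φ) = Module.finrank ℚ K := by
  let _ : Algebra E K := ε.toAlgebra
  let _ : Algebra E ℂ := φ.toAlgebra
  have _ : FiniteDimensional E K := Module.Finite.of_restrictScalars_finite ℚ E K
  have e : Fib ε φ ≃ (K →ₐ[E] ℂ) :=
    { toFun := fun τ => { toRingHom := τ.1, commutes' := fun x => RingHom.congr_fun τ.2 x }
      invFun := fun σ => ⟨σ.toRingHom, by ext x; exact σ.commutes x⟩
      left_inv := fun τ => rfl
      right_inv := fun σ => rfl }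
  rw [Fintype.card_congr e, AlgHom.card E K ℂ, Module.finrank_mul_finrank ℚ E K]

/-- The trace. -/
theorem exists_tr [∀ φ, Fintype (Fib ε φ)] (y : K) : ∃ x : E, ∀ φ : E →+* ℂ,
    ∑ τ : Fib ε φ, τ.1 y = φ x := by
  let _ : Algebra E K := ε.toAlgebra
  have _ : FiniteDimensional E K := Module.Finite.of_restrictScalars_finite ℚ E K
  refine ⟨Algebra.trace E K y, fun φ => ?_⟩
  let _ : Algebra E ℂ := φ.toAlgebra
  let e : Fib ε φ ≃ (K →ₐ[E] ℂ) :=
    { toFun := fun τ => { toRingHom := τ.1, commutes' := fun x => RingHom.congr_fun τ.2 x }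
      invFun := fun σ => ⟨σ.toRingHom, by ext x; exact σ.commutes x⟩
      left_inv := fun τ => rfl
      right_inv := fun σ => rfl }
  have h := trace_eq_sum_embeddings (K := E) (L := K) ℂ (x := y)
  have h2 : φ (Algebra.trace E K y) = algebraMap E ℂ (Algebra.trace E K y) := rfl
  rw [h2, h]
  exact Fintype.sum_equiv e _ _ (fun τ => rfl)

end HC.J
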