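import Pool.Agent.Lib.HC.Defs
import Pool.Agent.Lib.HC.J.Tor1

/-!
# PROJECT HC, part J (helper28): the isogeny from `T` to a product of the tori of CM types of `K`

`T` is isogenous to a product of the `ℂ^Φ_i / Φ_i(O_i)`, `ε i : E i → K`, `S i` the CM type of `K` induced by `Φ_i`, `T'` the product
of the `ℂ^(S i) / S_i(O_K)`: there are homomorphisms `φ : T → T'` and `ψ : T' → T` with `ψ φ = N > 0` (`exists_maps`).
-/

set_option autoImplicit false

open NumberField

noncomputable section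

namespace HC.J

/-- A bounded denominator. -/
theorem exists_den {V V' : Type} [AddCommGroup V] [AddCommGroup V'] (φ : V →+ V')
    (L : Submodule ℤ V) (L' : Submodule ℤ V') [Module.Finite ℤ L]
    (h : ∀ v ∈ L, ∃ N : ℕ, 0 < N ∧ N • φ v ∈ L') : ∃ N : ℕ, 0 < N ∧ ∀ v ∈ L, N • φ v ∈ L' := by
  obtain ⟨S, hS⟩ : L.FG := Module.Finite.iff_fg.1 inferInstance
  have hSL : ∀ v ∈ S, v ∈ L := fun v hv => hS ▸ Submodule.subset_span hv
  choose! N hN using h
  refine ⟨∏ v ∈ S, N v, Finset.prod_pos fun v hv => (hN v (hSL v hv)).1, ?_⟩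
  have key : ∀ v ∈ Submodule.span ℤ (S : Set V), (∏ v ∈ S, N v) • φ v ∈ L' := by
    intro v hv
    induction hv using Submodule.span_induction with
    | mem v hv =>
      obtain ⟨m, hm⟩ := Finset.dvd_prod_of_mem N (Finset.mem_coe.1 hv)
      rw [hm, mul_comm, mul_smul]
      exact L'.nsmul_mem (hN v (hSL v hv)).2 m
    | zero => rw [map_zero, smul_zero]; exact L'.zero_mem
    | add x y _ _ hx hy => rw [map_add, smul_add]; exact L'.add_mem hx hy
    | smul c x _ hx =>
      rw [map_zsmul, smul_comm]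
      exact L'.smul_mem c hx
  intro v hv
  exact key v (hS.symm ▸ hv)

variable {n : ℕ} {E : Fin n → Type} [∀ i, Field (E i)] [∀ i, NumberField (E i)]
  (Φ : ∀ i, Set (E i →+* ℂ))

/-- The embedding of the product of the fields. -/
def emb : (∀ i, E i) →ₗ[ℚ] ((s : (i : Fin n) × Φ i) → ℂ) where
  toFun x s := s.2.1 (x s.1)
  map_add' x y := by
    funext s
    simp
  map_smul' q x := by
    funext s
    simp [map_rat_smul]

variable {Φ}

theorem emb_inj (hΦ : ∀ i, IsType (Φ i)) : Function.Injective (emb Φ) := by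
  rw [injective_iff_map_eq_zero]
  intro x hx
  funext i
  obtain ⟨φ⟩ : Nonempty (E i →+* ℂ) := inferInstance
  obtain ⟨χ, hχ⟩ : ∃ χ : E i →+* ℂ, χ ∈ Φ i := by
    by_cases h : φ ∈ Φ i
    · exact ⟨φ, h⟩
    · refine ⟨ComplexEmbedding.conjugate φ, ?_⟩
      by_contra h2
      exact h ((hΦ i φ).2 h2)
  have h1 := congrFun hx ⟨i, χ, hχ⟩
  exact (map_eq_zero χ).1 h1

/-- `2 |Φ| = [E : ℚ]`. -/
theorem two_card {F : Type} [Field F] [NumberField F] {Ψ : Set (F →+* ℂ)} (hΨ : IsType Ψ) :
    2 * Nat.card Ψ = Module.finrank ℚ F := by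
  classical
  rw [← Embeddings.card F ℂ, ← Nat.card_eq_fintype_card]
  have e : (F →+* ℂ) ≃ Ψ ⊕ Ψ :=
    { toFun := fun φ => if h : φ ∈ Ψ then Sum.inl ⟨φ, h⟩ else
        Sum.inr ⟨ComplexEmbedding.conjugate φ, by
          by_contra h2
          exact h ((hΨ φ).2 h2)⟩
      invFun := Sum.elim (fun φ => φ.1) (fun φ => ComplexEmbedding.conjugate φ.1)
      left_inv := by
        intro φ
        by_cases h : φ ∈ Ψ
        · simp only [h, dif_pos, Sum.elim_inl]
        · simp only [h, dif_neg, not_false_iff, Sum.elim_inr]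
          exact star_star φ
      right_inv := by
        rintro (⟨φ, h⟩ | ⟨φ, h⟩)
        · rw [Sum.elim_inl]
          exact dif_pos h
        · have h1 : ComplexEmbedding.conjugate φ ∉ Ψ := (hΨ φ).1 h
          rw [Sum.elim_inr]
          refine (dif_neg h1).trans ?_
          refine congrArg Sum.inr (Subtype.ext ?_)
          exact star_star φ }
  rw [Nat.card_congr e, Nat.card_sum, two_mul]

/-- The lattice of `T` is commensurable with the product of the rings of integers. -/
theorem exists_mul_mem {T : AV} (hΦ : ∀ i, IsType (Φ i))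
    (ψ : T.V ≃ₗ[ℂ] ((s : (i : Fin n) × Φ i) → ℂ))
    (hL : ∀ v ∈ T.L, ∃ y : ∀ i, E i, ∀ (i : Fin n) (φ : Φ i), ψ v ⟨i, φ⟩ = φ.1 (y i))
    (x : ∀ i, E i) {w : T.V} (hw : ψ w = emb Φ x) : ∃ N : ℕ, 0 < N ∧ N • w ∈ T.L := by
  classical
  have hfin : Module.Finite ℤ T.L := ZLattice.module_finite ℝ T.L
  have hfree : Module.Free ℤ T.L := ZLattice.module_free ℝ T.L
  let b := Module.Free.chooseBasis ℤ T.L
  choose y hy using fun j => hL (b j) (b j).2
  have hy' : ∀ j, ψ (b j) = emb Φ (y j) := by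
    intro j
    funext s
    exact hy j s.1 s.2
  have l1 : LinearIndependent ℤ (fun j => ((b j : T.L) : T.V)) :=
    b.linearIndependent.map' T.L.subtype (Submodule.ker_subtype _)
  have l2 : LinearIndependent ℤ (fun j => ψ ((b j : T.L) : T.V)) :=
    l1.map' (ψ.toLinearMap.restrictScalars ℤ) (LinearMap.ker_eq_bot.2 ψ.injective)
  have l3 : LinearIndependent ℤ y := by
    have e : (fun j => ψ ((b j : T.L) : T.V)) = ((emb Φ).restrictScalars ℤ) ∘ y := by
      funext j
      exact hy' j
    rw [e] at l2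
    exact l2.of_comp _
  have l4 : LinearIndependent ℚ y := (LinearIndependent.iff_fractionRing ℤ ℚ).1 l3
  have hfΦ : ∀ i, Finite (Φ i) := fun i => inferInstance
  have hcard : Fintype.card (Module.Free.ChooseBasisIndex ℤ T.L) = Module.finrank ℚ (∀ i, E i) := by
    have _ := Fintype.ofFinite ((i : Fin n) × Φ i)
    rw [← Module.finrank_eq_card_chooseBasisIndex, ZLattice.rank ℝ T.L, finrank_real_of_complex,
      LinearEquiv.finrank_eq ψ, Module.finrank_fintype_fun_eq_card, ← Nat.card_eq_fintype_card,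
      Nat.card_sigma, Finset.mul_sum, Module.finrank_pi_fintype]
    exact Finset.sum_congr rfl fun i _ => two_card (hΦ i)
  have hspan := l4.span_eq_top_of_card_eq_finrank' hcard
  have key : ∀ x ∈ Submodule.span ℚ (Set.range y), ∃ N : ℕ, 0 < N ∧ ∃ v ∈ T.L,
      N • emb Φ x = ψ v := by
    intro x hx
    induction hx using Submodule.span_induction with
    | mem x hx =>
      obtain ⟨j, rfl⟩ := hx
      exact ⟨1, one_pos, b j, (b j).2, by rw [one_smul, hy']⟩
    | zero => exact ⟨1, one_pos, 0, T.L.zero_mem, by rw [map_zero, map_zero, smul_zero]⟩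
    | add x x' _ _ hx hx' =>
      obtain ⟨N, hN, v, hv, h⟩ := hx
      obtain ⟨N', hN', v', hv', h'⟩ := hx'
      refine ⟨N * N', Nat.mul_pos hN hN', N' • v + N • v',
        T.L.add_mem (T.L.nsmul_mem hv _) (T.L.nsmul_mem hv' _), ?_⟩
      rw [map_add, smul_add, map_add, map_nsmul, map_nsmul, ← h, ← h', smul_smul, smul_smul,
        mul_comm N']
    | smul q x _ hx =>
      obtain ⟨N, hN, v, hv, h⟩ := hx
      refine ⟨N * q.den, Nat.mul_pos hN q.pos, q.num • v, T.L.smul_mem _ hv, ?_⟩
      rw [map_smul, map_zsmul, ← h, mul_comm, mul_smul, smul_comm (N : ℕ) q]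
      have e : ∀ z : ((s : (i : Fin n) × Φ i) → ℂ), q.den • (q • z) = q.num • z := by
        intro z
        funext s
        simp only [Pi.smul_apply]
        rw [nsmul_eq_mul, zsmul_eq_mul, Rat.smul_def, ← mul_assoc]
        congr 1
        have h1 : (q.den : ℚ) * q = q.num := Rat.den_mul_eq_num q
        exact_mod_cast congrArg (fun x : ℚ => (x : ℂ)) h1
      rw [e]
  obtain ⟨N, hN, v, hv, h⟩ := key x (hspan ▸ Submodule.mem_top)
  refine ⟨N, hN, ?_⟩
  have : N • w = v := by
    apply ψ.injective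
    rw [map_nsmul, hw, h]
  rw [this]
  exact hv

end HC.J
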